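import Mathlib

open Polynomial

namespace Pool.Agent.Results.MP_6f4f36_nt.TernarySubsum

open Classical in
/-- The partitions of `n` all of whose parts are powers of `3`. -/
noncomputable def T (n : ℕ) : Finset n.Partition :=
  Nat.Partition.restricted n (fun i => ∃ k : ℕ, i = 3 ^ k)

/-- `h_l(x) = ∏_{i=1}^n (1 + x^i)^(⌊n/i⌋ - m_l(i))`, where `m_l(i)` is the multiplicity of `i`. -/
noncomputable def h (n : ℕ) (l : n.Partition) : ℤ[X] :=
  ∏ i ∈ Finset.Icc 1 n, (1 + X ^ i) ^ (n / i - l.parts.count i)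

/-- `G` is the monic greatest common divisor in `ℤ[x]` of the `h_l`, `l` a ternary partition
of `n`. -/
def IsMonicGcd (n : ℕ) (G : ℤ[X]) : Prop :=
  G.Monic ∧ (∀ l ∈ T n, G ∣ h n l) ∧ ∀ D : ℤ[X], (∀ l ∈ T n, D ∣ h n l) → D ∣ G

/-- `N` is the quotient of `∑ h_l` by the monic greatest common divisor of the `h_l`. -/
def IsNum (n : ℕ) (N : ℤ[X]) : Prop :=
  ∃ G : ℤ[X], IsMonicGcd n G ∧ G * N = ∑ l ∈ T n, h n l

/-! ### A divisibility lemma in factorial rings -/

lemma dvd_of_forall_prime {R ι : Type*} [CommRing R] [IsDomain R] [UniqueFactorizationMonoid R]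
    (s : Finset ι) (c : ι → R) (D G : R) (hp : ∀ p : R, Prime p → ∃ i ∈ s, ¬ p ∣ c i)
    (hs : ∃ i ∈ s, c i ≠ 0) (hD : ∀ i ∈ s, D ∣ G * c i) : D ∣ G := by
  classical
  let _ : StrongNormalizationMonoid R := UniqueFactorizationMonoid.strongNormalizationMonoid
  let _ : NormalizedGCDMonoid R := UniqueFactorizationMonoid.toNormalizedGCDMonoid R
  have h1 : D ∣ s.gcd (fun i => G * c i) := Finset.dvd_gcd hD
  have h1' : D ∣ G * s.gcd c := h1.trans (Finset.gcd_mul_left' s c G).dvd
  have h2 : IsUnit (s.gcd c) := by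
    by_contra hu
    have h0 : s.gcd c ≠ 0 := by
      intro h
      rw [Finset.gcd_eq_zero_iff] at h
      obtain ⟨i, hi, hci⟩ := hs
      exact hci (h i hi)
    obtain ⟨p, hpi, hpd⟩ := WfDvdMonoid.exists_irreducible_factor hu h0
    obtain ⟨i, hi, hn⟩ := hp p (UniqueFactorizationMonoid.irreducible_iff_prime.1 hpi)
    exact hn (hpd.trans (Finset.gcd_dvd hi))
  exact h2.dvd_mul_right.1 h1'

/-! ### Cyclotomic factorisation -/

/-- The cyclotomic polynomial of index `2 * 3 ^ j`. -/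
noncomputable abbrev P (j : ℕ) : ℤ[X] := cyclotomic (2 * 3 ^ j) ℤ

lemma P_zero : P 0 = X + 1 := by
  simp [P, cyclotomic_two]

lemma expand_P_zero : expand ℤ 3 (P 0) = P 1 * P 0 := by
  have := cyclotomic_expand_eq_cyclotomic_mul (p := 3) (n := 2) Nat.prime_three (by norm_num) ℤ
  simpa [P] using this

lemma expand_P_succ (j : ℕ) : expand ℤ 3 (P (j + 1)) = P (j + 2) := by
  have := cyclotomic_expand_eq_cyclotomic (p := 3) (n := 2 * 3 ^ (j + 1)) Nat.prime_three
    (Dvd.intro (2 * 3 ^ j) (by ring)) ℤ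
  rw [P, this, P, show 2 * 3 ^ (j + 1) * 3 = 2 * 3 ^ (j + 2) by ring]

lemma one_add (k : ℕ) : (1 + X ^ 3 ^ k : ℤ[X]) = ∏ j ∈ Finset.range (k + 1), P j := by
  induction k with
  | zero => simp [P_zero, add_comm]
  | succ k ih =>
    have h1 : (1 + X ^ 3 ^ (k + 1) : ℤ[X]) = expand ℤ 3 (1 + X ^ 3 ^ k) := by
      simp only [map_add, map_one, map_pow, expand_X]
      rw [← pow_mul, pow_succ, mul_comm]
    rw [h1, ih, map_prod, Finset.prod_range_succ', expand_P_zero]
    have h2 : ∏ j ∈ Finset.range k, expand ℤ 3 (P (j + 1)) = ∏ j ∈ Finset.range k, P (j + 2) :=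
      Finset.prod_congr rfl (fun j _ => expand_P_succ j)
    rw [h2, Finset.prod_range_succ' (fun j => P j) (k + 1), Finset.prod_range_succ']
    ring

lemma eval_P_zero : (P 0).eval (-1) = 0 := by
  rw [P_zero]; simp

lemma eval_P_succ (j : ℕ) : (P (j + 1)).eval (-1) = 3 := by
  induction j with
  | zero =>
    -- `P 1 * P 0 = 1 + X ^ 3`
    have h1 : (1 + X ^ 3 : ℤ[X]) = P 1 * (1 + X) := by
      have := one_add 1
      rw [Finset.prod_range_succ, Finset.prod_range_one, P_zero] at this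
      rw [show (3 : ℕ) = 3 ^ 1 by norm_num, this]
      ring
    have h2 : (1 + X ^ 3 : ℤ[X]) = (1 - X + X ^ 2) * (1 + X) := by ring
    have h3 : (P 1 : ℤ[X]) = 1 - X + X ^ 2 := by
      have hne : (1 + X : ℤ[X]) ≠ 0 := by
        intro h
        have := congrArg (eval 1) h
        simp at this
      exact mul_right_cancel₀ hne (h1.symm.trans h2)
    rw [zero_add, h3]
    simp
  | succ j ih =>
    rw [← expand_P_succ, expand_eval]
    have : ((-1 : ℤ)) ^ 3 = -1 := by norm_num
    rw [this, ih]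

lemma P_monic (j : ℕ) : (P j).Monic := cyclotomic.monic _ _

lemma P_irreducible (j : ℕ) : Irreducible (P j) := cyclotomic.irreducible (by positivity)

lemma P_prime (j : ℕ) : Prime (P j) :=
  UniqueFactorizationMonoid.irreducible_iff_prime.1 (P_irreducible j)

lemma P_dvd_P {i j : ℕ} (hd : P i ∣ P j) : i = j := by
  have h1 : Associated (P i) (P j) := (P_irreducible i).associated_of_dvd (P_irreducible j) hd
  have h2 : P i = P j := eq_of_monic_of_associated (P_monic i) (P_monic j) h1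
  have h3 : 2 * 3 ^ i = 2 * 3 ^ j := cyclotomic_injective (R := ℤ) h2
  have h4 : 3 ^ i = 3 ^ j := by omega
  exact Nat.pow_right_injective (by norm_num) h4

/-! ### The exponents -/

/-- number of parts divisible by `3 ^ j` -/
def e (j : ℕ) (s : Multiset ℕ) : ℕ := (s.filter (3 ^ j ∣ ·)).card

lemma mul_e_le (j : ℕ) (s : Multiset ℕ) : 3 ^ j * e j s ≤ (s.filter (3 ^ j ∣ ·)).sum ∨
    0 ∈ s := by
  by_cases h0 : 0 ∈ s
  · exact Or.inr h0
  · left
    rw [mul_comm]
    unfold e
    apply Multiset.card_nsmul_le_sum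
    intro x hx
    rw [Multiset.mem_filter] at hx
    exact Nat.le_of_dvd (Nat.pos_of_ne_zero (fun h => h0 (h ▸ hx.1))) hx.2

lemma e_le {n : ℕ} (l : n.Partition) (j : ℕ) : e j l.parts ≤ n / 3 ^ j := by
  rw [Nat.le_div_iff_mul_le (by positivity), mul_comm]
  rcases mul_e_le j l.parts with h | h
  · refine h.trans ?_
    conv_rhs => rw [← l.parts_sum]
    have := Multiset.filter_add_not (3 ^ j ∣ ·) l.parts
    conv_rhs => rw [← this]
    rw [Multiset.sum_add]
    exact Nat.le_add_right _ _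
  · exact absurd (l.parts_pos h) (lt_irrefl _)

lemma prod_one_add (n : ℕ) (s : Multiset ℕ) (hs : ∀ i ∈ s, ∃ k : ℕ, i = 3 ^ k ∧ k ≤ n) :
    (s.map (fun i => (1 + X ^ i : ℤ[X]))).prod = ∏ j ∈ Finset.range (n + 1), P j ^ e j s := by
  induction s using Multiset.induction_on with
  | empty => simp [e]
  | cons a s ih =>
    obtain ⟨k, rfl, hk⟩ := hs a (Multiset.mem_cons_self _ _)
    rw [Multiset.map_cons, Multiset.prod_cons,
      ih (fun i hi => hs i (Multiset.mem_cons_of_mem hi)), one_add]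
    have h1 : ∏ j ∈ Finset.range (k + 1), P j =
        ∏ j ∈ Finset.range (n + 1), P j ^ (if 3 ^ j ∣ 3 ^ k then 1 else 0) := by
      rw [← Finset.prod_subset (Finset.range_mono (Nat.succ_le_succ hk))]
      · apply Finset.prod_congr rfl
        intro j hj
        rw [Finset.mem_range] at hj
        rw [if_pos (pow_dvd_pow 3 (by omega)), pow_one]
      · intro j _ hj
        rw [Finset.mem_range] at hj
        have : ¬ (3 ^ j ∣ 3 ^ k) := by
          rw [Nat.pow_dvd_pow_iff_le_right (by norm_num)]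
          omega
        rw [if_neg this, pow_zero]
    rw [h1, ← Finset.prod_mul_distrib]
    apply Finset.prod_congr rfl
    intro j _
    rw [← pow_add]
    congr 1
    unfold e
    rw [Multiset.filter_cons]
    split_ifs with h <;> simp [add_comm]

lemma mem_T {n : ℕ} {l : n.Partition} : l ∈ T n ↔ ∀ i ∈ l.parts, ∃ k : ℕ, i = 3 ^ k := by
  classical
  simp [T, Nat.Partition.restricted]

lemma part_bound {n : ℕ} {l : n.Partition} (hl : l ∈ T n) :
    ∀ i ∈ l.parts, ∃ k : ℕ, i = 3 ^ k ∧ k ≤ n := by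
  intro i hi
  obtain ⟨k, rfl⟩ := mem_T.1 hl i hi
  refine ⟨k, rfl, ?_⟩
  have h1 : 3 ^ k ≤ n := by
    conv_rhs => rw [← l.parts_sum]
    exact Multiset.single_le_sum (fun x _ => Nat.zero_le x) _ hi
  exact (Nat.lt_pow_self (by norm_num)).le.trans h1

/-- product of the `1 + x^i` over the parts -/
noncomputable def sp {n : ℕ} (l : n.Partition) : ℤ[X] :=
  (l.parts.map (fun i => (1 + X ^ i : ℤ[X]))).prod

/-- the complementary factor -/
noncomputable def c {n : ℕ} (l : n.Partition) : ℤ[X] :=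
  ∏ j ∈ Finset.range (n + 1), P j ^ (n / 3 ^ j - e j l.parts)

/-- the least common multiple -/
noncomputable def L (n : ℕ) : ℤ[X] := ∏ j ∈ Finset.range (n + 1), P j ^ (n / 3 ^ j)

lemma sp_mul_c {n : ℕ} {l : n.Partition} (hl : l ∈ T n) : sp l * c l = L n := by
  unfold sp c L
  rw [prod_one_add n l.parts (part_bound hl), ← Finset.prod_mul_distrib]
  apply Finset.prod_congr rfl
  intro j _
  rw [← pow_add, Nat.add_sub_cancel' (e_le l j)]

/-- the full product -/
noncomputable def A (n : ℕ) : ℤ[X] := ∏ i ∈ Finset.Icc 1 n, (1 + X ^ i) ^ (n / i)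

lemma count_le {n : ℕ} (l : n.Partition) (i : ℕ) (hi : 1 ≤ i) : l.parts.count i ≤ n / i := by
  rw [Nat.le_div_iff_mul_le (by omega)]
  have h1 : Multiset.replicate (l.parts.count i) i ≤ l.parts :=
    Multiset.le_count_iff_replicate_le.1 le_rfl
  obtain ⟨t, ht⟩ := Multiset.le_iff_exists_add.1 h1
  have h2 := congrArg Multiset.sum ht
  rw [l.parts_sum, Multiset.sum_add, Multiset.sum_replicate, smul_eq_mul] at h2
  omega

lemma sp_eq {n : ℕ} (l : n.Partition) :
    sp l = ∏ i ∈ Finset.Icc 1 n, (1 + X ^ i : ℤ[X]) ^ (l.parts.count i) := by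
  unfold sp
  rw [Finset.prod_multiset_map_count]
  apply Finset.prod_subset
  · intro i hi
    rw [Multiset.mem_toFinset] at hi
    rw [Finset.mem_Icc]
    refine ⟨l.parts_pos hi, ?_⟩
    conv_rhs => rw [← l.parts_sum]
    exact Multiset.single_le_sum (fun x _ => Nat.zero_le x) _ hi
  · intro i _ hi
    rw [Multiset.mem_toFinset, ← Multiset.count_eq_zero] at hi
    rw [hi, pow_zero]

lemma h_mul_sp {n : ℕ} (l : n.Partition) : h n l * sp l = A n := by
  rw [sp_eq]
  unfold h A
  rw [← Finset.prod_mul_distrib]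
  apply Finset.prod_congr rfl
  intro i hi
  rw [Finset.mem_Icc] at hi
  rw [← pow_add, Nat.sub_add_cancel (count_le l i hi.1)]

lemma one_add_X_pow_monic (i : ℕ) (hi : 1 ≤ i) : (1 + X ^ i : ℤ[X]).Monic := by
  rw [add_comm]
  exact monic_X_pow_add_C (1 : ℤ) (by omega)

lemma A_monic (n : ℕ) : (A n).Monic :=
  monic_prod_of_monic _ _ (fun i hi => (one_add_X_pow_monic i (Finset.mem_Icc.1 hi).1).pow _)

lemma L_monic (n : ℕ) : (L n).Monic := monic_prod_of_monic _ _ (fun j _ => (P_monic j).pow _)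

lemma c_monic {n : ℕ} (l : n.Partition) : (c l).Monic :=
  monic_prod_of_monic _ _ (fun j _ => (P_monic j).pow _)

lemma L_dvd_A (n : ℕ) : L n ∣ A n := by
  have h1 : L n = ∏ j ∈ (Finset.range (n + 1)).filter (fun j => 3 ^ j ≤ n), P j ^ (n / 3 ^ j) := by
    unfold L
    rw [Finset.prod_filter]
    apply Finset.prod_congr rfl
    intro j _
    split_ifs with hj
    · rfl
    · rw [Nat.div_eq_of_lt (by omega), pow_zero]
  have h2 : ∏ j ∈ (Finset.range (n + 1)).filter (fun j => 3 ^ j ≤ n), P j ^ (n / 3 ^ j) ∣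
      ∏ j ∈ (Finset.range (n + 1)).filter (fun j => 3 ^ j ≤ n),
        (1 + X ^ 3 ^ j : ℤ[X]) ^ (n / 3 ^ j) := by
    apply Finset.prod_dvd_prod_of_dvd
    intro j _
    apply pow_dvd_pow_of_dvd
    rw [one_add]
    exact Finset.dvd_prod_of_mem _ (Finset.mem_range.2 (Nat.lt_succ_self j))
  have h3 : ∏ j ∈ (Finset.range (n + 1)).filter (fun j => 3 ^ j ≤ n),
        (1 + X ^ 3 ^ j : ℤ[X]) ^ (n / 3 ^ j) =
      ∏ i ∈ ((Finset.range (n + 1)).filter (fun j => 3 ^ j ≤ n)).image (fun j => 3 ^ j),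
        (1 + X ^ i : ℤ[X]) ^ (n / i) := by
    rw [Finset.prod_image]
    intro a _ b _ hab
    exact Nat.pow_right_injective (by norm_num) hab
  rw [h1]
  refine h2.trans ?_
  rw [h3]
  unfold A
  apply Finset.prod_dvd_prod_of_subset
  intro i hi
  rw [Finset.mem_image] at hi
  obtain ⟨j, hj, rfl⟩ := hi
  rw [Finset.mem_filter] at hj
  rw [Finset.mem_Icc]
  exact ⟨Nat.one_le_pow _ _ (by norm_num), hj.2⟩

/-! ### Special partitions -/

/-- `⌊n / 3^j⌋` parts `3^j` and `n mod 3^j` parts `1` -/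
def part (n j : ℕ) : n.Partition where
  parts := Multiset.replicate (n / 3 ^ j) (3 ^ j) + Multiset.replicate (n % 3 ^ j) 1
  parts_pos := by
    intro i hi
    rw [Multiset.mem_add] at hi
    rcases hi with hi | hi
    · rw [Multiset.eq_of_mem_replicate hi]; positivity
    · rw [Multiset.eq_of_mem_replicate hi]; norm_num
  parts_sum := by
    simp only [Multiset.sum_add, Multiset.sum_replicate, smul_eq_mul, mul_one]
    exact Nat.div_add_mod' n (3 ^ j)

lemma part_mem (n j : ℕ) : part n j ∈ T n := by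
  rw [mem_T]
  intro i hi
  simp only [part, Multiset.mem_add] at hi
  rcases hi with hi | hi
  · exact ⟨j, Multiset.eq_of_mem_replicate hi⟩
  · exact ⟨0, Multiset.eq_of_mem_replicate hi⟩

lemma e_part (n j : ℕ) : n / 3 ^ j ≤ e j (part n j).parts := by
  unfold e part
  simp only [Multiset.filter_add, Multiset.card_add]
  have : (Multiset.replicate (n / 3 ^ j) (3 ^ j)).filter (3 ^ j ∣ ·) =
      Multiset.replicate (n / 3 ^ j) (3 ^ j) := by
    rw [Multiset.filter_eq_self]
    intro a ha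
    rw [Multiset.eq_of_mem_replicate ha]
  rw [this, Multiset.card_replicate]
  exact Nat.le_add_right _ _

lemma exists_not_dvd (n : ℕ) (p : ℤ[X]) (hp : Prime p) : ∃ l ∈ T n, ¬ p ∣ c l := by
  by_contra hcon
  push Not at hcon
  have h0 := hcon _ (part_mem n 0)
  unfold c at h0
  rw [Prime.dvd_finsetProd_iff hp] at h0
  obtain ⟨j, hj, hpj⟩ := h0
  have hpj' : p ∣ P j := hp.dvd_of_dvd_pow hpj
  have has : Associated p (P j) := hp.irreducible.associated_of_dvd (P_irreducible j) hpj'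
  have h1 := hcon _ (part_mem n j)
  unfold c at h1
  rw [Prime.dvd_finsetProd_iff hp] at h1
  obtain ⟨i, hi, hpi⟩ := h1
  by_cases hij : i = j
  · subst hij
    have : n / 3 ^ i - e i (part n i).parts = 0 := by
      have := e_part n i
      omega
    rw [this, pow_zero] at hpi
    exact hp.not_isUnit (isUnit_of_dvd_one hpi)
  · have h2 : P j ∣ P i := has.symm.dvd.trans (hp.dvd_of_dvd_pow hpi)
    exact hij (P_dvd_P h2).symm

lemma isMonicGcd_of {n : ℕ} {G : ℤ[X]} (hG : A n = L n * G) : IsMonicGcd n G := by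
  have hGm : G.Monic := (L_monic n).of_mul_monic_left (hG ▸ A_monic n)
  have hfac : ∀ l ∈ T n, h n l = G * c l := by
    intro l hl
    have h1 : h n l * sp l = (G * c l) * sp l := by
      rw [h_mul_sp, hG, ← sp_mul_c hl]; ring
    have h2 : sp l ≠ 0 := by
      intro h0
      have := A_monic n
      rw [← h_mul_sp l, h0, mul_zero] at this
      exact this.ne_zero rfl
    exact mul_right_cancel₀ h2 h1
  refine ⟨hGm, fun l hl => ⟨c l, hfac l hl⟩, ?_⟩
  intro D hD
  refine dvd_of_forall_prime (T n) (fun l => c l) D G (exists_not_dvd n)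
    ⟨part n 0, part_mem n 0, (c_monic _).ne_zero⟩ ?_
  intro l hl
  have := hD l hl
  rwa [hfac l hl] at this

lemma isNum_iff (n : ℕ) (N : ℤ[X]) : IsNum n N ↔ N = ∑ l ∈ T n, c l := by
  obtain ⟨G0, hG0⟩ := L_dvd_A n
  have hm := isMonicGcd_of hG0
  have hfac : ∀ l ∈ T n, h n l = G0 * c l := by
    intro l hl
    have h1 : h n l * sp l = (G0 * c l) * sp l := by
      rw [h_mul_sp, hG0, ← sp_mul_c hl]; ring
    have h2 : sp l ≠ 0 := by
      intro h0
      have := A_monic n
      rw [← h_mul_sp l, h0, mul_zero] at this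
      exact this.ne_zero rfl
    exact mul_right_cancel₀ h2 h1
  have hsum : ∑ l ∈ T n, h n l = G0 * ∑ l ∈ T n, c l := by
    rw [Finset.mul_sum]
    exact Finset.sum_congr rfl hfac
  constructor
  · rintro ⟨G, hG, hGN⟩
    have hGG : G = G0 := eq_of_monic_of_associated hG.1 hm.1
      (associated_of_dvd_dvd (hm.2.2 G hG.2.1) (hG.2.2 G0 hm.2.1))
    rw [hsum, hGG] at hGN
    exact mul_left_cancel₀ hm.1.ne_zero hGN
  · rintro rfl
    exact ⟨G0, hm, hsum.symm⟩

lemma e_zero (s : Multiset ℕ) : e 0 s = s.card := by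
  unfold e
  simp

lemma card_eq_iff {n : ℕ} (l : n.Partition) (hc : l.parts.card = n) : l = part n 0 := by
  apply Nat.Partition.ext
  have h1 : ∀ x ∈ l.parts, x = 1 := by
    by_contra hcon
    push Not at hcon
    obtain ⟨x, hx, hx1⟩ := hcon
    obtain ⟨t, ht⟩ := Multiset.exists_cons_of_mem hx
    have hpos := l.parts_pos hx
    have hsum := l.parts_sum
    have hle : t.card ≤ t.sum := by
      have := Multiset.card_nsmul_le_sum (s := t) (a := 1) (fun y hy => by
        have : y ∈ l.parts := by rw [ht]; exact Multiset.mem_cons_of_mem hy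
        exact l.parts_pos this)
      simpa using this
    rw [ht, Multiset.sum_cons] at hsum
    rw [ht, Multiset.card_cons] at hc
    omega
  have h2 : l.parts = Multiset.replicate n 1 := by
    rw [Multiset.eq_replicate]
    exact ⟨hc, h1⟩
  rw [h2]
  simp [part, Nat.mod_one]

lemma eval_c_ne {n : ℕ} {l : n.Partition} (hl : l ≠ part n 0) : (c l).eval (-1) = 0 := by
  unfold c
  rw [eval_prod]
  apply Finset.prod_eq_zero (Finset.mem_range.2 (Nat.succ_pos n))
  rw [eval_pow, eval_P_zero]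
  apply zero_pow
  rw [e_zero, pow_zero, Nat.div_one]
  have hne : l.parts.card ≠ n := fun h => hl (card_eq_iff l h)
  have hle := e_le l 0
  rw [e_zero, pow_zero, Nat.div_one] at hle
  omega

lemma eval_c_ones (n : ℕ) : (c (part n 0)).eval (-1) = 3 ^ padicValNat 3 n.factorial := by
  have hf : Fact (Nat.Prime 3) := ⟨Nat.prime_three⟩
  have he : ∀ j, e (j + 1) (part n 0).parts = 0 := by
    intro j
    unfold e part
    rw [Multiset.card_eq_zero, Multiset.filter_eq_nil]
    intro a ha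
    rw [Multiset.mem_add] at ha
    have ha1 : a = 1 := by
      rcases ha with ha | ha
      · simpa using Multiset.eq_of_mem_replicate ha
      · exact Multiset.eq_of_mem_replicate ha
    rw [ha1]
    intro hdvd
    have := Nat.le_of_dvd (by norm_num) hdvd
    have h3 : 3 ^ (j + 1) = 3 * 3 ^ j := by ring
    have h4 : 0 < 3 ^ j := by positivity
    omega
  have he0 : n / 3 ^ 0 - e 0 (part n 0).parts = 0 := by
    have := e_part n 0
    omega
  unfold c
  rw [eval_prod, Finset.prod_range_succ', he0, pow_zero, eval_one, mul_one]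
  have h1 : ∀ j ∈ Finset.range n,
      eval (-1) (P (j + 1) ^ (n / 3 ^ (j + 1) - e (j + 1) (part n 0).parts)) =
        3 ^ (n / 3 ^ (j + 1)) := by
    intro j _
    rw [he, Nat.sub_zero, eval_pow, eval_P_succ]
  rw [Finset.prod_congr rfl h1, Finset.prod_pow_eq_pow_sum]
  congr 1
  rw [padicValNat_factorial (b := n + 1) (lt_of_le_of_lt (Nat.log_le_self 3 n) (Nat.lt_succ_self n))]
  rw [Finset.sum_Ico_eq_sum_range]
  apply Finset.sum_congr rfl
  intro j _
  rw [add_comm 1 j]

lemma eval_num {n : ℕ} {N : ℤ[X]} (hN : IsNum n N) :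
    N.eval (-1) = 3 ^ padicValNat 3 n.factorial := by
  rw [isNum_iff] at hN
  rw [hN, eval_finsetSum, Finset.sum_eq_single_of_mem _ (part_mem n 0) (fun l _ hl => eval_c_ne hl)]
  exact eval_c_ones n

/-- For every `n ≥ 1` the polynomial `num_T(n, x)` is well defined (it exists and is unique), its
value `s(n)` at `x = -1` satisfies `s(1) = s(2) = 1` and
`s(3n) = s(3n+1) = s(3n+2) = 3 ^ val_3((3n)!)` for all `n ≥ 1`; moreover
`s(n) = 3 ^ val_3(n!)` for all `n ≥ 1`. -/
theorem result :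
    (∀ n : ℕ, 1 ≤ n → ∃! N : ℤ[X], IsNum n N) ∧
    (∀ N : ℤ[X], IsNum 1 N → N.eval (-1) = 1) ∧
    (∀ N : ℤ[X], IsNum 2 N → N.eval (-1) = 1) ∧
    (∀ n : ℕ, 1 ≤ n → ∀ j < 3, ∀ N : ℤ[X], IsNum (3 * n + j) N →
      N.eval (-1) = 3 ^ padicValNat 3 (3 * n).factorial) ∧
    (∀ n : ℕ, 1 ≤ n → ∀ N : ℤ[X], IsNum n N → N.eval (-1) = 3 ^ padicValNat 3 n.factorial) := by
  have hf : Fact (Nat.Prime 3) := ⟨Nat.prime_three⟩
  refine ⟨?_, ?_, ?_, ?_, fun n _ N hN => eval_num hN⟩
  · intro n _
    refine ⟨∑ l ∈ T n, c l, (isNum_iff n _).2 rfl, fun N hN => (isNum_iff n N).1 hN⟩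
  · intro N hN
    rw [eval_num hN]
    simp
  · intro N hN
    rw [eval_num hN]
    have : padicValNat 3 (Nat.factorial 2) = 0 := by
      rw [padicValNat.eq_zero_iff]
      right; right
      decide
    rw [this, pow_zero]
  · intro n _ j hj N hN
    rw [eval_num hN, padicValNat_factorial_mul_add _ hj]

end Pool.Agent.Results.MP_6f4f36_nt.TernarySubsum
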